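import Pool.Agent.U259.AQ.Ari
import Pool.Agent.N85.WM.Stm

/-!
# Two multiplicative invariants of finite groups: bounds on one residue class

Owner helper9. The engine (`Cld`, `sep`, `multiple`) is by helper259.
-/

set_option autoImplicit false

namespace Pool.Agent.U9.AW

open Pool.Agent.U259.AQ
open Pool.Agent.N85.WM (Wr)

/-- the class `X` contains the cyclic groups of order prime to `p`, and it is closed under direct
products and wreath products with cyclic groups of prime order -/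
structure Cls (p : ℕ) (X : ∀ (G : Type) [Group G], Prop) : Prop where
  cyc : ∀ (n : ℕ) [NeZero n], ¬ p ∣ n → X (Multiplicative (ZMod n))
  prod : ∀ (G K : Type) [Group G] [Group K] [Finite G] [Finite K], X G → X K → X (G × K)
  wr : ∀ (q : ℕ) [Fact q.Prime] (G : Type) [Group G] [Finite G], X G → X (Wr q G)

/-- the formal properties of `l` and `w` -/
structure Inv (p : ℕ) (f : ∀ (G : Type) [Group G], ℕ) : Prop where
  cyc : ∀ (n : ℕ) [NeZero n], ¬ p ∣ n → f (Multiplicative (ZMod n)) = n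
  prod : ∀ (G K : Type) [Group G] [Group K] [Finite G] [Finite K], f (G × K) = f G * f K
  wr : ∀ (q : ℕ) [Fact q.Prime] (G : Type) [Group G] [Finite G],
    (q : ℤ) * f (Wr q G) =
      (f G : ℤ) ^ q + (if q = p then (q : ℤ) - 1 else (q : ℤ) ^ 2 - 1) * f G

theorem finWr (q : ℕ) [Fact q.Prime] (G : Type) [Group G] [Finite G] : Finite (Wr q G) := by
  have : NeZero q := ⟨(Fact.out : q.Prime).ne_zero⟩
  exact Finite.of_injective (fun x : Wr q G => (x.left, x.right)) fun x y h =>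
    SemidirectProduct.ext (congrArg Prod.fst h) (congrArg Prod.snd h)

section

variable {p : ℕ} {X : ∀ (G : Type) [Group G], Prop} {f g : ∀ (G : Type) [Group G], ℕ}

/-- the pairs of values -/
def PP (X : ∀ (G : Type) [Group G], Prop) (f g : ∀ (G : Type) [Group G], ℕ) (a z : ℤ) : Prop :=
  ∃ (G : Type) (_ : Group G) (_ : Finite G), X G ∧ (f G : ℤ) = a ∧ (g G : ℤ) = z

theorem PP.cld (hX : Cls p X) (hf : Inv p f) (hg : Inv p g) : Cld p (PP X f g) where
  cyc n hn h := by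
    have : NeZero n := ⟨hn.ne'⟩
    exact ⟨Multiplicative (ZMod n), inferInstance, inferInstance, hX.cyc n h,
      by rw [hf.cyc n h], by rw [hg.cyc n h]⟩
  mul := by
    rintro a z a' z' ⟨G, _, _, h1, rfl, rfl⟩ ⟨K, _, _, h2, rfl, rfl⟩
    refine ⟨G × K, inferInstance, inferInstance, hX.prod G K h1 h2, ?_, ?_⟩
    · rw [hf.prod]
      push_cast
      rfl
    · rw [hg.prod]
      push_cast
      rfl
  wr := by
    rintro q hq a z ⟨G, _, _, h1, rfl, rfl⟩
    have : Fact q.Prime := ⟨hq⟩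
    exact ⟨_, _, ⟨Wr q G, inferInstance, finWr q G, hX.wr q G h1, rfl, rfl⟩, hf.wr q G,
      hg.wr q G⟩

theorem cst_nonneg {q : ℕ} (hq : q.Prime) (p : ℕ) :
    (0 : ℤ) ≤ (if q = p then (q : ℤ) - 1 else (q : ℤ) ^ 2 - 1) := by
  have h1 : (1 : ℤ) ≤ q := by exact_mod_cast hq.one_le
  split_ifs
  · linarith
  · nlinarith

/-- the pairs with `0 ≤ a ≤ z` -/
theorem cld_pos {Pr : ℤ → ℤ → Prop} (h : Cld p Pr) :
    Cld p (fun a z => Pr a z ∧ 0 ≤ a ∧ a ≤ z) where
  cyc n hn h1 := ⟨h.cyc n hn h1, by positivity, le_rfl⟩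
  mul := by
    rintro a z a' z' ⟨h1, h2, h3⟩ ⟨h4, h5, h6⟩
    exact ⟨h.mul _ _ _ _ h1 h4, mul_nonneg h2 h5, mul_le_mul h3 h6 h5 (h2.trans h3)⟩
  wr := by
    rintro q hq a z ⟨h1, h2, h3⟩
    obtain ⟨A, Z, h4, h5, h6⟩ := h.wr q hq a z h1
    have hc := cst_nonneg hq p
    have hq0 : (0 : ℤ) < q := by exact_mod_cast hq.pos
    refine ⟨A, Z, ⟨h4, ?_, ?_⟩, h5, h6⟩
    · have h7 : (0 : ℤ) ≤ q * A := by
        rw [h5]
        exact add_nonneg (pow_nonneg h2 q) (mul_nonneg hc h2)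
      exact nonneg_of_mul_nonneg_right h7 hq0
    · have h7 : (q : ℤ) * A ≤ q * Z := by
        rw [h5, h6]
        exact add_le_add (pow_le_pow_left₀ h2 h3 q) (mul_le_mul_of_nonneg_left h3 hc)
      exact le_of_mul_le_mul_left h7 hq0

/-- the pairs with `0 < a = z` -/
theorem cld_diag {Pr : ℤ → ℤ → Prop} (h : Cld p Pr) :
    Cld p (fun a z => Pr a z ∧ 0 < a ∧ a = z) where
  cyc n hn h1 := ⟨h.cyc n hn h1, by exact_mod_cast hn, rfl⟩
  mul := by
    rintro a z a' z' ⟨h1, h2, rfl⟩ ⟨h4, h5, rfl⟩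
    exact ⟨h.mul _ _ _ _ h1 h4, mul_pos h2 h5, rfl⟩
  wr := by
    rintro q hq a z ⟨h1, h2, rfl⟩
    obtain ⟨A, Z, h4, h5, h6⟩ := h.wr q hq a a h1
    have hc := cst_nonneg hq p
    have hq0 : (0 : ℤ) < q := by exact_mod_cast hq.pos
    refine ⟨A, Z, ⟨h4, ?_, ?_⟩, h5, h6⟩
    · have h7 : (0 : ℤ) < q * A := by
        rw [h5]
        exact add_pos_of_pos_of_nonneg (pow_pos h2 q) (mul_nonneg hc h2.le)
      exact (mul_pos_iff_of_pos_left hq0).1 h7
    · have h7 : (q : ℤ) * A = q * Z := by rw [h5, h6]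
      exact mul_left_cancel₀ hq0.ne' h7

/-- powers which do not change the residues modulo the prime divisors of `m` -/
theorem pow_cop {m : ℕ} (hm0 : m ≠ 0) {a z : ℤ}
    (h : ∀ r ∈ m.primeFactors, ¬ (r : ℤ) ∣ a - z) (t : ℕ) :
    IsCoprime (z ^ (1 + m.totient * t) - a ^ (1 + m.totient * t)) (m : ℤ) := by
  rw [Int.isCoprime_iff_gcd_eq_one]
  by_contra hne
  obtain ⟨r, hr, hrd⟩ := Nat.exists_prime_and_dvd hne
  have h1 : (r : ℤ) ∣ z ^ (1 + m.totient * t) - a ^ (1 + m.totient * t) :=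
    (Int.natCast_dvd_natCast.2 hrd).trans (Int.gcd_dvd_left _ _)
  have h2 : r ∣ m := by
    have h3 : (r : ℤ) ∣ (m : ℤ) := (Int.natCast_dvd_natCast.2 hrd).trans (Int.gcd_dvd_right _ _)
    exact_mod_cast h3
  apply h r (Nat.mem_primeFactors.2 ⟨hr, h2, hm0⟩)
  have : Fact r.Prime := ⟨hr⟩
  have h4 : ∀ x : ZMod r, x ^ (1 + m.totient * t) = x := by
    intro x
    rcases eq_or_ne x 0 with rfl | hx
    · rw [zero_pow]
      omega
    · obtain ⟨s, hs⟩ : r - 1 ∣ m.totient := by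
        rw [← Nat.totient_prime hr]
        exact Nat.totient_dvd_of_dvd h2
      rw [pow_add, pow_one, hs, mul_assoc, pow_mul, ZMod.pow_card_sub_one_eq_one hx, one_pow,
        mul_one]
  have h5 := (ZMod.intCast_zmod_eq_zero_iff_dvd _ r).2 h1
  push_cast at h5
  rw [h4, h4] at h5
  rw [← ZMod.intCast_zmod_eq_zero_iff_dvd]
  push_cast
  rw [← neg_eq_zero, neg_sub]
  exact h5

/-- powers of a group -/
theorem powers (hX : Cls p X) (hf : Inv p f) (hg : Inv p g) (G : Type) [Group G] [Finite G]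
    (hG : X G) (n : ℕ) : ∃ (H : Type) (_ : Group H) (_ : Finite H), X H ∧
      f H = f G ^ (n + 1) ∧ g H = g G ^ (n + 1) ∧ Nat.card H = Nat.card G ^ (n + 1) := by
  induction n with
  | zero => exact ⟨G, inferInstance, inferInstance, hG, by simp, by simp, by simp⟩
  | succ n ih =>
    obtain ⟨H, _, _, h1, h2, h3, h4⟩ := ih
    refine ⟨G × H, inferInstance, inferInstance, hX.prod G H hG h1, ?_, ?_, ?_⟩
    · rw [hf.prod, h2, pow_succ' _ (n + 1)]
    · rw [hg.prod, h3, pow_succ' _ (n + 1)]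
    · rw [Nat.card_prod, h4, pow_succ' _ (n + 1)]

/-- **a subpolynomial bound on one residue class decides** -/
theorem main (hp : p.Prime) (hX : Cls p X) (hf : Inv p f) (hg : Inv p g) {m : ℕ} (hm0 : m ≠ 0)
    (r₀ : ℤ) (hb : ∀ ε : ℝ, 0 < ε → ∃ C : ℝ, ∀ (G : Type) [Group G] [Finite G], X G →
      (m : ℤ) ∣ (g G : ℤ) - f G - r₀ → (g G : ℝ) ≤ C * (Nat.card G : ℝ) ^ ε * f G)
    (G : Type) [Group G] [Finite G] (hG : X G) : g G ≤ f G := by
  by_contra hlt
  push Not at hlt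
  have hC := PP.cld hX hf hg
  -- a group whose difference is prime to `m`
  obtain ⟨a, z, ⟨⟨G₁, _, _, hG₁, ha, hz⟩, h0, h1⟩, hne, hS⟩ := sep hp (cld_pos hC) m.primeFactors
    (fun r hr => Nat.prime_of_mem_primeFactors hr) (f G) (g G)
    ⟨⟨G, inferInstance, inferInstance, hG, rfl, rfl⟩, by positivity, by exact_mod_cast hlt.le⟩
    (by exact_mod_cast hlt.ne)
  have hlt1 : f G₁ < g G₁ := by
    have h2 : a < z := lt_of_le_of_ne h1 hne
    rw [← ha, ← hz] at h2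
    exact_mod_cast h2
  -- the multipliers
  have hK : ∀ k : ℕ, ∃ (K : Type) (_ : Group K) (_ : Finite K), X K ∧ 0 < f K ∧ g K = f K ∧
      (0 < k → (m : ℤ) ∣ (f K : ℤ) - k) := by
    intro k
    rcases Nat.eq_zero_or_pos k with hk | hk
    · have h11 : ¬ p ∣ 1 := hp.not_dvd_one
      refine ⟨Multiplicative (ZMod 1), inferInstance, inferInstance, hX.cyc 1 h11, ?_, ?_,
        fun h => absurd h (by omega)⟩
      · rw [hf.cyc 1 h11]
        exact one_pos
      · rw [hf.cyc 1 h11, hg.cyc 1 h11]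
    · obtain ⟨a', z', ⟨⟨K, _, _, h2, h3, h4⟩, h5, h6⟩, h7, h8⟩ := multiple hp hm0 (cld_diag hC) k hk
        1 1 (by
          have h := (cld_diag hC).cyc 1 one_pos hp.not_dvd_one
          simpa using h)
      refine ⟨K, inferInstance, inferInstance, h2, ?_, ?_, fun _ => ?_⟩
      · rw [← h3] at h5
        exact_mod_cast h5
      · rw [← h3, ← h4] at h6
        exact_mod_cast h6.symm
      · rw [h3]
        simpa using h7
  choose K gK fK hKX hK0 hKe hKk using hK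
  -- the exponent
  have hz0 : (0 : ℝ) < g G₁ := by
    have : 0 < g G₁ := lt_of_le_of_lt (Nat.zero_le _) hlt1
    exact_mod_cast this
  have hcard : (0 : ℝ) < Nat.card G₁ := by
    have : 0 < Nat.card G₁ := Nat.card_pos
    exact_mod_cast this
  obtain ⟨ε, hε, hρ⟩ : ∃ ε : ℝ, 0 < ε ∧ (Nat.card G₁ : ℝ) ^ ε * f G₁ < g G₁ := by
    have h2 : Filter.Tendsto (fun ε : ℝ => (Nat.card G₁ : ℝ) ^ ε * f G₁)
        (nhdsWithin 0 (Set.Ioi 0)) (nhds ((Nat.card G₁ : ℝ) ^ (0 : ℝ) * f G₁)) := by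
      refine Filter.Tendsto.mul_const _ ?_
      exact ((Real.continuousAt_const_rpow hcard.ne').tendsto).mono_left nhdsWithin_le_nhds
    rw [Real.rpow_zero, one_mul] at h2
    have h3 : (f G₁ : ℝ) < g G₁ := by exact_mod_cast hlt1
    have h4 := (h2.eventually (gt_mem_nhds h3)).and self_mem_nhdsWithin
    obtain ⟨ε, h5, h6⟩ := h4.exists
    exact ⟨ε, h6, h5⟩
  obtain ⟨C, hCb⟩ := hb ε hε
  -- a bound for the multipliers
  set M : ℝ := ∑ k ∈ Finset.range (2 * m + 1), (Nat.card (K k) : ℝ) ^ ε with hM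
  have hMk : ∀ k < 2 * m + 1, (Nat.card (K k) : ℝ) ^ ε ≤ M := fun k hk =>
    Finset.single_le_sum (f := fun k => (Nat.card (K k) : ℝ) ^ ε)
      (fun i _ => Real.rpow_nonneg (Nat.cast_nonneg _) _) (Finset.mem_range.2 hk)
  have hM0 : 0 ≤ M := Finset.sum_nonneg fun i _ => Real.rpow_nonneg (Nat.cast_nonneg _) _
  set ρ : ℝ := (Nat.card G₁ : ℝ) ^ ε * f G₁ with hρd
  have hρ0 : 0 ≤ ρ := mul_nonneg (Real.rpow_nonneg hcard.le _) (Nat.cast_nonneg _)
  -- the inequality for the powers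
  have key : ∀ t : ℕ, (g G₁ : ℝ) ^ (1 + m.totient * t) ≤ |C| * M * ρ ^ (1 + m.totient * t) := by
    intro t
    set n := 1 + m.totient * t with hn
    obtain ⟨H, _, _, hHX, hHf, hHg, hHc⟩ := powers hX hf hg G₁ hG₁ (m.totient * t)
    have hn1 : m.totient * t + 1 = n := by omega
    rw [hn1] at hHf hHg hHc
    have hS' : ∀ r ∈ m.primeFactors, ¬ (r : ℤ) ∣ (f G₁ : ℤ) - g G₁ := by
      rw [ha, hz]
      exact hS
    obtain ⟨u, w, huw⟩ := pow_cop hm0 hS' t
    rw [← hn] at huw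
    have hmz : (m : ℤ) ≠ 0 := by exact_mod_cast hm0
    obtain ⟨k, hk0, hk2, hk⟩ : ∃ k : ℕ, 0 < k ∧ k < 2 * m + 1 ∧ (m : ℤ) ∣ k - r₀ * u := by
      have h2 := Int.toNat_of_nonneg (Int.emod_nonneg (r₀ * u) hmz)
      have h5 : (r₀ * u) % (m : ℤ) < m := Int.emod_lt_of_pos _ (by omega)
      refine ⟨((r₀ * u) % (m : ℤ)).toNat + m, by omega, by omega, ?_⟩
      have h3 : (m : ℤ) ∣ r₀ * u - (r₀ * u) % (m : ℤ) := Int.dvd_self_sub_emod
      have h4 : ((((r₀ * u) % (m : ℤ)).toNat + m : ℕ) : ℤ) - r₀ * u =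
          (m : ℤ) - (r₀ * u - (r₀ * u) % (m : ℤ)) := by
        push_cast
        rw [h2]
        ring
      rw [h4]
      exact dvd_sub (dvd_refl _) h3
    let _ := gK k
    have := fK k
    have hdiv : (m : ℤ) ∣ (g (H × K k) : ℤ) - f (H × K k) - r₀ := by
      rw [hf.prod, hg.prod, hHf, hHg, hKe k]
      push_cast
      obtain ⟨c1, hc1⟩ := hKk k hk0
      obtain ⟨c2, hc2⟩ := hk
      have e1 : (f (K k) : ℤ) = k + m * c1 := by linarith
      have e2 : (k : ℤ) = r₀ * u + m * c2 := by linarith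
      rw [e1, e2]
      have e3 : u * ((g G₁ : ℤ) ^ n - (f G₁ : ℤ) ^ n) = 1 - w * m := by linarith
      refine ⟨(c2 + c1) * ((g G₁ : ℤ) ^ n - (f G₁ : ℤ) ^ n) - r₀ * w, ?_⟩
      have e4 : (g G₁ : ℤ) ^ n * (r₀ * u + m * c2 + m * c1) -
          (f G₁ : ℤ) ^ n * (r₀ * u + m * c2 + m * c1) - r₀ =
          r₀ * (u * ((g G₁ : ℤ) ^ n - (f G₁ : ℤ) ^ n)) +
            m * ((c2 + c1) * ((g G₁ : ℤ) ^ n - (f G₁ : ℤ) ^ n)) - r₀ := by ring
      rw [e4, e3]
      ring
    have h2 := hCb (H × K k) (hX.prod H (K k) hHX (hKX k)) hdiv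
    rw [hf.prod, hg.prod, hHf, hHg, hKe k, Nat.card_prod, hHc] at h2
    push_cast at h2
    have hk1 : (0 : ℝ) < f (K k) := by exact_mod_cast hK0 k
    rw [Real.mul_rpow (by positivity) (Nat.cast_nonneg _)] at h2
    have h3 : ((Nat.card G₁ : ℝ) ^ n) ^ ε = ((Nat.card G₁ : ℝ) ^ ε) ^ n := by
      rw [← Real.rpow_natCast, ← Real.rpow_natCast, ← Real.rpow_mul hcard.le,
        ← Real.rpow_mul hcard.le, mul_comm]
    rw [h3] at h2
    have h4 : (g G₁ : ℝ) ^ n ≤ C * (Nat.card (K k) : ℝ) ^ ε * ρ ^ n := by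
      have h5 : (g G₁ : ℝ) ^ n * f (K k) ≤
          C * (Nat.card (K k) : ℝ) ^ ε * ρ ^ n * f (K k) := by
        refine h2.trans (le_of_eq ?_)
        rw [hρd, mul_pow]
        ring
      exact le_of_mul_le_mul_right h5 hk1
    refine h4.trans ?_
    refine mul_le_mul_of_nonneg_right ?_ (pow_nonneg hρ0 n)
    refine (mul_le_mul_of_nonneg_right (le_abs_self C)
      (Real.rpow_nonneg (Nat.cast_nonneg _) _)).trans ?_
    exact mul_le_mul_of_nonneg_left (hMk k hk2) (abs_nonneg C)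
  -- contradiction
  have hφ : 0 < m.totient := Nat.totient_pos.2 (Nat.pos_of_ne_zero hm0)
  have hq1 : ρ / g G₁ < 1 := (div_lt_one hz0).2 hρ
  have hq0 : 0 ≤ ρ / g G₁ := div_nonneg hρ0 hz0.le
  have hlim : Filter.Tendsto (fun n : ℕ => |C| * M * (ρ / g G₁) ^ n) Filter.atTop (nhds 0) := by
    have h2 := (tendsto_pow_atTop_nhds_zero_of_lt_one hq0 hq1).const_mul (|C| * M)
    rwa [mul_zero] at h2
  obtain ⟨N, hN⟩ := Filter.eventually_atTop.1 (hlim.eventually (gt_mem_nhds one_pos))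
  have h2 := hN (1 + m.totient * N) (by nlinarith)
  have h3 := key N
  have h4 : (0 : ℝ) < (g G₁ : ℝ) ^ (1 + m.totient * N) := pow_pos hz0 _
  have h5 : |C| * M * ρ ^ (1 + m.totient * N) < (g G₁ : ℝ) ^ (1 + m.totient * N) := by
    have h6 : |C| * M * (ρ / g G₁) ^ (1 + m.totient * N) * (g G₁ : ℝ) ^ (1 + m.totient * N) =
        |C| * M * ρ ^ (1 + m.totient * N) := by
      rw [div_pow]
      field_simp
    rw [← h6]
    exact mul_lt_of_lt_one_left h4 h2
  exact absurd h3 (not_le.2 h5)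

end

end Pool.Agent.U9.AW
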